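import Pool.Agent.R798.IrrInf

set_option autoImplicit false

namespace Pool.Agent.Results.MP_5484c7_co.CliqueIrregular

/-- For every `n ≥ 3` there are infinitely many pairwise non-isomorphic finite graphs whose
vertices lie in pairwise different numbers of subgraphs isomorphic to the complete graph on
`n` vertices. -/
theorem result (n : ℕ) (hn : 3 ≤ n) :
    ∃ (m : ℕ → ℕ) (G : ∀ k, SimpleGraph (Fin (m k))),
      (∀ k, Function.Injective (fun x : Fin (m k) =>
        {H : (G k).Subgraph |
          Nonempty (H.coe ≃g (⊤ : SimpleGraph (Fin n))) ∧ x ∈ H.verts}.ncard)) ∧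
      ∀ k l, k ≠ l → IsEmpty (G k ≃g G l) := by
  have hconn : (⊤ : SimpleGraph (Fin n)).Connected := by
    have : Nonempty (Fin n) := ⟨⟨0, by omega⟩⟩
    refine SimpleGraph.Connected.mk ?_
    intro x y
    by_cases h : x = y
    · rw [h]
    · exact SimpleGraph.Adj.reachable (by simpa using h)
  have hcard : 3 ≤ Fintype.card (Fin n) := by
    rw [Fintype.card_fin]
    exact hn
  exact Pool.Agent.R798.Irr.infinitely
    (P := fun m G => Function.Injective (fun x : Fin m =>
        {H : G.Subgraph |
          Nonempty (H.coe ≃g (⊤ : SimpleGraph (Fin n))) ∧ x ∈ H.verts}.ncard))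
    (Pool.Agent.R798.Irr.big_type _ hcard hconn)

end Pool.Agent.Results.MP_5484c7_co.CliqueIrregular
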