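import Pool.Agent.R798.IrrInf

set_option autoImplicit false

namespace Pool.Agent.Results.MP_5484c7_co.StarIrregular

/-- For every `n ≥ 2` there are infinitely many pairwise non-isomorphic finite graphs whose
vertices lie in pairwise different numbers of (not necessarily induced) subgraphs isomorphic
to the star with `n` leaves. -/
theorem result (n : ℕ) (hn : 2 ≤ n) :
    ∃ (m : ℕ → ℕ) (G : ∀ k, SimpleGraph (Fin (m k))),
      (∀ k, Function.Injective (fun x : Fin (m k) =>
        {H : (G k).Subgraph |
          Nonempty (H.coe ≃g completeBipartiteGraph (Fin 1) (Fin n)) ∧ x ∈ H.verts}.ncard)) ∧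
      ∀ k l, k ≠ l → IsEmpty (G k ≃g G l) := by
  have hconn : (completeBipartiteGraph (Fin 1) (Fin n)).Connected := by
    have : Nonempty (Fin 1 ⊕ Fin n) := ⟨Sum.inl 0⟩
    have h0 : ∀ x : Fin 1 ⊕ Fin n,
        (completeBipartiteGraph (Fin 1) (Fin n)).Reachable (Sum.inl 0) x := by
      intro x
      rcases x with x | x
      · have : x = 0 := Subsingleton.elim _ _
        rw [this]
      · apply SimpleGraph.Adj.reachable
        simp
    refine SimpleGraph.Connected.mk ?_
    intro x y
    exact (h0 x).symm.trans (h0 y)
  have hcard : 3 ≤ Fintype.card (Fin 1 ⊕ Fin n) := by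
    rw [Fintype.card_sum, Fintype.card_fin, Fintype.card_fin]
    omega
  exact Pool.Agent.R798.Irr.infinitely
    (P := fun m G => Function.Injective (fun x : Fin m =>
        {H : G.Subgraph |
          Nonempty (H.coe ≃g completeBipartiteGraph (Fin 1) (Fin n)) ∧ x ∈ H.verts}.ncard))
    (Pool.Agent.R798.Irr.big_type _ hcard hconn)

end Pool.Agent.Results.MP_5484c7_co.StarIrregular
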